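import Pool.Agent.Lib.HW.SDefs
import Pool.Agent.Lib.RB.B_RBR
import Pool.Agent.Lib.HW86.Ae
import Pool.Agent.Lib.HW27.Defs

/-! Project hw: from the statement to the manifold layer and back. -/

open scoped Classical Topology ContDiff ComplexOrder Matrix Manifold
open Set MeasureTheory Complex Filter

noncomputable section

namespace Pool.Agent.Lib.HW

open Pool.Agent.Lib.SV (E Pluri jacAt)
open Pool.Agent.Lib.HS32 Pool.Agent.Lib.GH Pool.Agent.Lib.HS.BBR Pool.Agent.Lib.RB.R32

variable {n : ℕ}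

theorem second {f : E n → ℂ} {z : E n} (h : ContDiffAt ℝ ∞ f z) (v : E n) :
    fderiv ℝ (fun w => fderiv ℝ f w v) z v = ∑ j, ∑ i,
      (dz i (dz j f) z * v i * v j + dzb i (dz j f) z * star (v i) * v j +
        dzb j (dz i f) z * v i * star (v j) + dzb i (dzb j f) z * star (v i) * star (v j)) := by
  have e : (fun w => fderiv ℝ f w v) = fun w => ∑ j, (dz j f w * v j + dzb j f w * star (v j)) :=
    funext fun w => fderiv_eq_sum f w v
  have d1 := fun j => cd_diff (cd_dz h j)
  have d2 := fun j => cd_diff (cd_dzb h j)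
  rw [e, fderiv_fun_sum fun j _ => ((d1 j).mul_const _).fun_add ((d2 j).mul_const _),
    sum_apply]
  refine Finset.sum_congr rfl fun j _ => ?_
  rw [fderiv_fun_add ((d1 j).mul_const _) ((d2 j).mul_const _), fderiv_mul_const (d1 j),
    fderiv_mul_const (d2 j)]
  simp only [add_apply, smul_apply, smul_eq_mul]
  rw [fderiv_eq_sum, fderiv_eq_sum, Finset.mul_sum, Finset.mul_sum, ← Finset.sum_add_distrib]
  refine Finset.sum_congr rfl fun i _ => ?_
  rw [dz_dzb h]
  ring

theorem levi_eq {φ : E n → ℝ} {z : E n} (h : ContDiffAt ℝ ∞ φ z) (v : E n) :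
    levi φ z v = nq (hess (fun w => (φ w : ℂ)) z) v := by
  have h' := cd_ofReal h
  have e : ∀ a : E n, ((fderiv ℝ (fun w => fderiv ℝ φ w a) z a : ℝ) : ℂ) =
      fderiv ℝ (fun w => fderiv ℝ (fun w => (φ w : ℂ)) w a) z a := fun a => by
    rw [← fderiv_ofReal (cd_diff (cd_fderiv h a))]
    refine congrArg (fun L : E n →L[ℝ] ℂ => L a) (EventuallyEq.fderiv_eq ?_)
    filter_upwards [cd_ev_diff h] with w hw
    exact (fderiv_ofReal hw a).symm
  have e2 : ((levi φ z v : ℝ) : ℂ) = star v ⬝ᵥ hess (fun w => (φ w : ℂ)) z *ᵥ v := by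
    rw [levi, ofReal_div, ofReal_add, e, e, second h', second h', ← Finset.sum_add_distrib,
      div_eq_iff (by norm_num)]
    have e3 : star v ⬝ᵥ hess (fun w => (φ w : ℂ)) z *ᵥ v =
        ∑ j, ∑ i, dzb j (dz i fun w => (φ w : ℂ)) z * v i * star (v j) := by
      simp only [dotProduct, Matrix.mulVec, hess, Matrix.of_apply, Finset.mul_sum, Pi.star_apply]
      exact Finset.sum_congr rfl fun j _ => Finset.sum_congr rfl fun i _ => by ring
    have e4 : star v ⬝ᵥ hess (fun w => (φ w : ℂ)) z *ᵥ v =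
        ∑ j, ∑ i, dzb i (dz j fun w => (φ w : ℂ)) z * star (v i) * v j := by
      rw [e3, Finset.sum_comm]
      exact Finset.sum_congr rfl fun j _ => Finset.sum_congr rfl fun i _ => by ring
    calc _ = ∑ j, ∑ i, (2 * (dzb j (dz i fun w => (φ w : ℂ)) z * v i * star (v j)) +
          2 * (dzb i (dz j fun w => (φ w : ℂ)) z * star (v i) * v j)) := by
          refine Finset.sum_congr rfl fun j _ => ?_
          rw [← Finset.sum_add_distrib]
          refine Finset.sum_congr rfl fun i _ => ?_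
          simp only [Pi.smul_apply, smul_eq_mul, star_mul', Complex.star_def, Complex.conj_I]
          linear_combination (dz i (dz j fun w => (φ w : ℂ)) z * v i * v j -
            dzb i (dz j fun w => (φ w : ℂ)) z * (starRingEnd ℂ) (v i) * v j -
            dzb j (dz i fun w => (φ w : ℂ)) z * v i * (starRingEnd ℂ) (v j) +
            dzb i (dzb j fun w => (φ w : ℂ)) z * (starRingEnd ℂ) (v i) * (starRingEnd ℂ) (v j)) *
            I_mul_I
      _ = _ := by
          simp only [Finset.sum_add_distrib, ← Finset.mul_sum]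
          rw [← e3, ← e4]
          push_cast
          ring
  rw [nq, ← e2, ofReal_re]

variable {X : Type} [TopologicalSpace X] [ChartedSpace (E n) X] [IsManifold 𝓘(ℂ, E n) ω X]

theorem ch_mem (x : X) : chartAt (E n) x ∈ (mf n X).C :=
  fun y => ⟨cp_chart (X := X) x y, cp_chart (X := X) y x⟩

theorem kae {g : X → Mat n} (hg : Kaehler g) : (mf n X).Kae (fam g) :=
  let ⟨g1, g2, _⟩ := fam_ok hg.toHermitian
  ⟨⟨g1.toForm, g2 hg⟩, g1.pos⟩

theorem nef {g : X → Mat n} (hg : Kaehler g) (hK : CanNef g) : W86.Nef (mf n X) (fam g) := by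
  intro ε hε
  let M : Mf n := mf n X
  let c : M.X → M.Ch := chartAt (M := X) (E n)
  have hc : ∀ x, c x ∈ M.C := ch_mem (X := X)
  have hs : ∀ x, x ∈ (c x).source := mem_chart_source (M := X) (E n)
  obtain ⟨-, hov, hJ, hsm, -⟩ := mTR n M
  have hk : M.Kae (fam g) := kae hg
  obtain ⟨u, hu⟩ := hK (ε / 2) (half_pos hε)
  have su : M.Sm u := (hsm ℝ u).2.2 fun x => ⟨c x, hc x, hs x, (hu x).1⟩
  have hf : M.Clo (M.gE (fam g) ε u) := ((hk.toClo.smul ε).sub
    ((mHES n M).2.2.2.2.2.2.2.2.1 _ hk.toMet)).add ((mHES n M).1 u su)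
  have key : ∀ x, (M.gE (fam g) ε u (c x) (c x x)).PosDef := fun x => by
    have hz := (c x).map_source (hs x)
    have e0 : fam g (c x) (c x x) = g x := by
      have := hJ _ (hc x) x (hs x)
      rw [Mf.J] at this
      simp only [fam, (c x).left_inv (hs x)]
      erw [this]
      simp
    have s1 := su _ (hc x) _ hz
    have s2 := ((mCOF n _ _ (hk.sm _ (hc x) _ hz)).2.2.2.2.2
      (Mf.AllOn.ev hk.pos (hc x) hz))
    refine Matrix.PosDef.of_dotProduct_mulVec_pos (hf.herm _ (hc x) _ hz) fun v hv => ?_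
    have h1 := (hu x).2 v
    have h2 := (hg.pos x).dotProduct_mulVec_pos hv
    have h3 : hess (fun w => ((u ((c x).symm w) + Real.log (fam g (c x) w).det.re : ℝ) : ℂ))
        (c x x) = M.hs u (c x) (c x x) - M.ric (fam g) (c x) (c x x) := by
      simp only [ofReal_add]
      refine (hess_add (cd_ofReal s1) (cd_ofReal s2.2.1)).trans ?_
      rw [Mf.ric, sub_neg_eq_add]
      rfl
    have h4 := levi_eq (s1.add s2.2.1) v
    have h5 : M.gE (fam g) ε u (c x) (c x x) =
        ε • g x + (M.hs u (c x) (c x x) - M.ric (fam g) (c x) (c x x)) := by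
      simp only [Mf.gE, Pi.add_apply, Pi.sub_apply, Pi.smul_apply, e0]
      abel
    have h6 := (hf.herm _ (hc x) _ hz).im_star_dotProduct_mulVec_self v
    refine Complex.pos_iff.2 ⟨?_, h6.symm⟩
    have h7 : -(ε / 2 * (star v ⬝ᵥ g x *ᵥ v).re) ≤
        nq (M.hs u (c x) (c x x) - M.ric (fam g) (c x) (c x x)) v := by
      rw [← h3]
      exact h1.trans_eq h4
    rw [h5, Matrix.add_mulVec, dotProduct_add, add_re, Matrix.smul_mulVec, dotProduct_smul,
      smul_re, smul_eq_mul]
    have h8 := mul_pos hε (Complex.pos_iff.1 h2).1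
    rw [nq] at h7
    linarith
  refine ⟨u, su, Mf.allOn_of_source fun e he x hx => ?_⟩
  have h1 : M.gE (fam g) ε u e (e x) = _ := hf.cmp _ (hc x) e he x (hs x) hx
  rw [h1]
  exact (key x).conjTranspose_mul_mul_same (Matrix.mulVec_injective_iff_isUnit.2
    ((Matrix.isUnit_iff_isUnit_det _).2 (hov _ (hc x) e he x (hs x) hx).2.1.isUnit))

theorem big (h : (mf n X).WBig) : CanBig n X := by
  let M : Mf n := mf n X
  let c : M.X → M.Ch := chartAt (M := X) (E n)
  have hc : ∀ x, c x ∈ M.C := ch_mem (X := X)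
  have hs : ∀ x, x ∈ (c x).source := mem_chart_source (M := X) (E n)
  obtain ⟨hch, hov, -⟩ := mTR n M
  obtain ⟨a, ha, h⟩ := h
  refine ⟨a, ha, h.mono fun m ⟨N, h1, s, h2, h3⟩ =>
    ⟨N, fun i (y : M.X) => s i (c y) (c y y), h1, ?_, fun i (y : M.X) => ?_⟩⟩
  · refine LinearIndependent.of_comp
      (LinearMap.mulRight ℂ fun y : M.X => (M.J (c y) (M.ch y) y).det ^ m) ?_
    have e : (fun i => M.ev (s i)) = (LinearMap.mulRight ℂ fun y : M.X =>
        (M.J (c y) (M.ch y) y).det ^ m) ∘ fun i (y : M.X) => s i (c y) (c y y) :=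
      funext fun i => funext fun y => (h2 i).cmp _ (hc y) _ (hch y).1 y (hs y) (hch y).2
    exact e ▸ h3
  · refine ((h2 i).hol _ (hc y) _ ((c y).map_source (hs y))).congr_of_eventuallyEq ?_
    filter_upwards [(c y).open_target.mem_nhds ((c y).map_source (hs y))] with w hw
    have h4 : s i (c y) (c y ((c y).symm w)) = _ :=
      (h2 i).cmp _ (hc ((c y).symm w)) _ (hc y) _ (hs _) ((c y).map_target hw)
    have h5 := (hov _ (hc ((c y).symm w)) _ (hc y) _ (hs _) ((c y).map_target hw)).1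
    rw [Mf.J] at h4
    rw [(c y).right_inv hw] at h4 h5
    rw [h4, ← (mCHN n _ _ h5).2.2.2.2.2.2.1]
    rfl

theorem big_zero (M : Mf 0) [M.Cpt] : M.WBig := by
  refine ⟨1, one_pos, Eventually.of_forall fun m => ⟨1, by simp, fun _ _ _ => 1, fun _ =>
    ⟨⟨fun _ _ _ _ => contDiffAt_const, fun _ _ _ _ _ _ _ => by simp⟩,
      fun _ _ _ _ => differentiableAt_const _⟩, ?_⟩⟩
  refine linearIndependent_unique_iff.2 fun h => ?_
  obtain ⟨x⟩ : Nonempty M.X := inferInstance
  exact one_ne_zero (congrFun h x)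

theorem ae_of (M : Mf n) [M.Cpt] {H : M.Fam (Mat n)} (hH : M.Met H) {A : Set M.X}
    (hA : MeasurableSet A) (h : ∀ x, ∃ e ∈ M.C, x ∈ e.source ∧ ∀ᵐ z, z ∈ e.target → e.symm z ∈ A) :
    ∀ᵐ x ∂M.mu H, x ∈ A := by
  choose c hc hs hp using h
  obtain ⟨t, ht⟩ := isCompact_univ.elim_finite_subcover (fun x => (c x).source)
    (fun x => (c x).open_source) fun x _ => mem_iUnion.2 ⟨x, hs x⟩
  have key : ∀ x, M.mu H (Aᶜ ∩ (c x).source) = 0 := fun x => by
    have h1 := ((mMU n M H hH).2.2.2.2.2.1 _ (hc x) _ (c x).open_target.measurableSet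
      Subset.rfl).2.1 (Aᶜ.indicator 1)
    rw [show (c x).symm '' (c x).target = (c x).source from (c x).symm.image_source_eq_target,
      lintegral_indicator_one hA.compl, Measure.restrict_apply hA.compl] at h1
    rw [h1, ← lintegral_zero (μ := volume.restrict (c x).target)]
    refine lintegral_congr_ae ?_
    filter_upwards [ae_restrict_of_ae (hp x), ae_restrict_mem (c x).open_target.measurableSet]
      with z h3 h4
    rw [indicator_of_notMem (by simpa using h3 h4), mul_zero]
  refine measure_mono_null (t := ⋃ x ∈ t, Aᶜ ∩ (c x).source) (fun y hy => ?_)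
    ((measure_biUnion_null_iff t.countable_toSet).2 fun x _ => key x)
  obtain ⟨x, hx, hy'⟩ := mem_iUnion₂.1 (ht (mem_univ y))
  exact mem_iUnion₂.2 ⟨x, hx, hy, hy'⟩

end Pool.Agent.Lib.HW
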