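import Pool.Agent.Lib.HW.Br

/-! Project hw: negative curvature along a compact set is bounded away from zero. -/

open scoped Classical Topology ContDiff ComplexOrder Matrix Manifold
open Set Complex Filter

noncomputable section

namespace Pool.Agent.Lib.HW

open Pool.Agent.Lib.SV (E)
open Pool.Agent.Lib.HS32 Pool.Agent.Lib.GH Pool.Agent.Lib.HS.BBR Pool.Agent.Lib.RB.R32

variable {n : ℕ}

theorem hom (T : E n → Mat n) (z v : E n) (t κ : ℝ) :
    (rm T z (t • v) (t • v) (t • v) (t • v)).re + κ * nq (T z) (t • v) ^ 2 =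
      t ^ 4 * ((rm T z v v v v).re + κ * nq (T z) v ^ 2) := by
  have e1 : rm T z (t • v) (t • v) (t • v) (t • v) = (t ^ 4 : ℝ) * rm T z v v v v := by
    simp only [rm, star_smul, Matrix.mulVec_smul, dotProduct_smul, smul_dotProduct, star_trivial,
      Pi.smul_apply, real_smul, Finset.mul_sum, star_mul', Complex.star_def, conj_ofReal]
    exact Finset.sum_congr rfl fun k _ => Finset.sum_congr rfl fun l _ => by push_cast; ring
  have e2 : nq (T z) (t • v) = t ^ 2 * nq (T z) v := by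
    simp only [nq, star_smul, Matrix.mulVec_smul, dotProduct_smul, smul_dotProduct, star_trivial,
      smul_re, smul_eq_mul]
    ring
  rw [e1, e2, re_ofReal_mul]
  ring

theorem quad {A : E n → Mat n} {z : E n} (hA : SmM A z) (v : E n) : ContinuousAt
    (fun q : (ℝ × E n) × E n => star q.2 ⬝ᵥ A q.1.2 *ᵥ q.2) ((0, z), v) := by
  have c1 : ContinuousAt (fun q : (ℝ × E n) × E n => (A q.1.2, q.2)) ((0, z), v) :=
    (ContinuousAt.comp_of_eq hA.continuousAt continuous_fst.snd.continuousAt rfl).prodMk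
      continuousAt_snd
  have c2 : Continuous fun p : Mat n × E n => star p.2 ⬝ᵥ p.1 *ᵥ p.2 :=
    continuous_snd.star.dotProduct (continuous_fst.matrix_mulVec continuous_snd)
  exact c2.continuousAt.comp c1

theorem loc {T : E n → Mat n} {z : E n} (hT : SmM T z) (h0 : (T z).det ≠ 0)
    (h : ∀ v, v ≠ 0 → (rm T z v v v v).re < 0) :
    ∀ᶠ p : ℝ × E n in 𝓝 (0, z), ∀ v, (rm T p.2 v v v v).re + p.1 * nq (T p.2) v ^ 2 ≤ 0 := by
  have h1 : ∀ᶠ p : ℝ × E n in 𝓝 (0, z), ∀ v ∈ Metric.sphere (0 : E n) 1,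
      (rm T p.2 v v v v).re + p.1 * nq (T p.2) v ^ 2 < 0 := by
    refine (isCompact_sphere _ _).eventually_forall_of_forall_eventually fun v hv => ?_
    have c1 : ContinuousAt (fun q : (ℝ × E n) × E n => rm T q.1.2 q.2 q.2 q.2 q.2) ((0, z), v) := by
      unfold rm
      refine tendsto_finsetSum _ fun k _ => tendsto_finsetSum _ fun l _ => ?_
      have c3 : Continuous fun q : (ℝ × E n) × E n => q.2 k * star (q.2 l) := by fun_prop
      exact c3.continuousAt.mul (quad (hT.mul (hT.th h0 k l)) v)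
    have c2 : ContinuousAt (fun q : (ℝ × E n) × E n =>
        (rm T q.1.2 q.2 q.2 q.2 q.2).re + q.1.1 * nq (T q.1.2) q.2 ^ 2) ((0, z), v) :=
      (continuous_re.continuousAt.comp c1).add (continuous_fst.fst.continuousAt.mul
        ((continuous_re.continuousAt.comp (quad hT v)).pow 2))
    refine c2.eventually_lt continuousAt_const ?_
    simpa using h v (by rintro rfl; simp at hv)
  filter_upwards [h1] with p hp v
  rcases eq_or_ne v 0 with rfl | hv
  · simp [rm, nq]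
  · have h2 := hom T p.2 (‖v‖⁻¹ • v) ‖v‖ p.1
    rw [smul_inv_smul₀ (norm_ne_zero_iff.2 hv)] at h2
    rw [h2]
    exact mul_nonpos_of_nonneg_of_nonpos (by positivity)
      (hp _ (by simp [norm_smul, norm_ne_zero_iff.2 hv])).le

variable {Y : Type} [TopologicalSpace Y] [ChartedSpace (E n) Y] [IsManifold 𝓘(ℂ, E n) ω Y]

theorem unif {h : Y → Mat n} (hh : Hermitian h) {K : Set Y} (hK : IsCompact K)
    (hc : ∀ y ∈ K, ∀ v, v ≠ 0 → curvAt h y v v < 0) : ∃ κ : ℝ, 0 < κ ∧
      ∀ y ∈ K, ∀ v, curvAt h y v v ≤ -(κ * (star v ⬝ᵥ h y *ᵥ v).re ^ 2) := by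
  let M : Mf n := mf n Y
  let c : M.X → M.Ch := chartAt (M := Y) (E n)
  have hm : ∀ x, c x ∈ M.C := ch_mem (X := Y)
  have hs : ∀ x, x ∈ (c x).source := mem_chart_source (M := Y) (E n)
  obtain ⟨-, hov, hJ, -⟩ := mTR n M
  have hk : M.Met (fam h) := (fam_ok hh).1
  have e0 : ∀ x, fam h (c x) (c x x) = h x := fun x => by
    have := hJ _ (hm x) x (hs x)
    rw [Mf.J] at this
    simp only [fam, (c x).left_inv (hs x)]
    erw [this]
    simp
  have e1 : ∀ x v, curvAt h x v v = (rm (fam h (c x)) (c x x) v v v v).re := fun x v =>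
    congrArg Complex.re (rm_curv (hk.sm.at (hm x) (hs x)) (hk.det_ne.at (hm x) (hs x)) v v).symm
  have key : ∀ᶠ κ in 𝓝 (0 : ℝ), ∀ y ∈ K, ∀ v,
      curvAt h y v v ≤ -(κ * (star v ⬝ᵥ h y *ᵥ v).re ^ 2) := by
    refine hK.eventually_forall_of_forall_eventually fun y hy => ?_
    have h1 := loc (hk.sm.at (hm y) (hs y)) (hk.det_ne.at (hm y) (hs y)) fun v hv =>
      e1 y v ▸ hc y hy v hv
    have h2 : Tendsto (fun p : ℝ × M.X => (p.1, c y p.2)) (𝓝 (0, y)) (𝓝 (0, c y y)) :=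
      continuousAt_fst.prodMk (ContinuousAt.comp (f := fun p : ℝ × M.X => p.2)
        ((c y).continuousAt (hs y)) continuousAt_snd)
    filter_upwards [h2.eventually h1, continuousAt_snd.eventually
      ((c y).open_source.mem_nhds (hs y))] with p hp hp' v
    obtain ⟨a1, a2, -, a3, -⟩ := hov _ (hm y) _ (hm p.2) p.2 hp' (hs p.2)
    have a4 : (c y ∘ (c p.2).symm) (c p.2 p.2) = c y p.2 := by
      simp [(c p.2).left_inv (hs p.2)]
    have a5 := (mPB n _ _ (fam h (c y)) (fam h (c p.2)) a1 a2 (a4 ▸ hk.sm.at (hm y) hp') (by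
      filter_upwards [a3] with w hw
      have h8 : fam h (c p.2) (c p.2 ((c p.2).symm w)) = _ :=
        hk.cmp _ (hm y) _ (hm p.2) _ hw.2.1 hw.2.2.1
      rw [hw.2.2.2.2.2.1, hw.2.2.2.2.2.2] at h8
      exact h8)).2.2 (a4 ▸ hk.det_ne.at (hm y) hp')
    have a6 : fam h (c p.2) (c p.2 p.2) = _ := hk.cmp _ (hm y) _ (hm p.2) _ hp' (hs p.2)
    have a7 := hp (M.J (c y) (c p.2) p.2 *ᵥ v)
    rw [e1, a5.2.2.1, a4, ← e0, a6]
    rw [nq, Matrix.star_mulVec, ← Matrix.dotProduct_mulVec, Matrix.mulVec_mulVec,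
      Matrix.mulVec_mulVec] at a7
    exact le_neg_iff_add_nonpos_right.2 a7
  obtain ⟨κ, h1, h2⟩ := ((key.filter_mono nhdsWithin_le_nhds).and
    (self_mem_nhdsWithin (s := Ioi (0 : ℝ)))).exists
  exact ⟨κ, h2, h1⟩

end Pool.Agent.Lib.HW
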