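import Pool.Agent.Lib.HS.All
import Pool.Agent.Lib.HW.Neg
import Pool.Agent.Lib.HW68.Bridge
import Pool.Agent.Lib.HW27.B_WBA
import Pool.Agent.Lib.HW27.B_WEU
import Pool.Agent.Lib.HW27.B_WGA
import Pool.Agent.Lib.HW27.B_WL1
import Pool.Agent.Lib.HW27.B_WL2
import Pool.Agent.Lib.HW27.B_WLC
import Pool.Agent.Lib.HW27.B_WLI
import Pool.Agent.Lib.HW27.B_WLO
import Pool.Agent.Lib.HW27.B_WN1
import Pool.Agent.Lib.HW27.B_WN2
import Pool.Agent.Lib.HW27.B_WNC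
import Pool.Agent.Lib.HW27.B_WNT
import Pool.Agent.Lib.HW27.B_WPK
import Pool.Agent.Lib.HW27.B_WPS
import Pool.Agent.Lib.HW27.B_WSI

/-! Project hw: assembly. -/

open scoped Manifold ContDiff

namespace Pool.Agent.Lib.HW

open Pool.Agent.Lib.SV (E)
open Pool.Agent.Lib.HS32 Pool.Agent.Lib.GH Pool.Agent.Lib.HW27 Pool.Agent.Lib.HS.BBR
  Pool.Agent.Lib.RB.R32

/-- The weak Morse inequality. -/
theorem morse : St_WMO :=
  morse_of (st_WPS (st_WN1 st_WNT (st_WNC st_WGA)) st_WPK)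
    (st_WLO (st_WN2 st_WNT (st_WNC st_WGA)) st_WSI (st_WLC st_WEU))
    (st_WLI (st_WL1 HS.asSC5 HS.asGRN2 HS.asBOX HS.asSLIM) (st_WL2 HS.asSC5 HS.asGRN2))

/-- A nef canonical bundle with positive volume is big. -/
theorem big_of_vol {n : ℕ} {X : Type} [TopologicalSpace X] [ChartedSpace (E n) X]
    [IsManifold 𝓘(ℂ, E n) ω X] [CompactSpace X] [T2Space X] [ConnectedSpace X] {g : X → Mat n}
    (hg : Kaehler g) (hK : CanNef g)
    (hv : 0 < n → ∀ [(mf n X).Cpt], 0 < (mf n X).vol (fam g) 0) : CanBig n X := by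
  haveI : (mf n X).Cpt := ⟨‹_›, ‹_›, ‹_›⟩
  refine big ?_
  rcases Nat.eq_zero_or_pos n with rfl | hn
  · exact big_zero _
  · exact big_of morse st_WBA _ hn (kae hg) ((nef hg hK).sol HS.asAUBIN hn (kae hg)) (hv hn)

theorem main (n N : ℕ) (X Y : Type) [TopologicalSpace X] [ChartedSpace (E n) X]
    [IsManifold 𝓘(ℂ, E n) ω X] [CompactSpace X] [T2Space X] [ConnectedSpace X]
    [TopologicalSpace Y] [ChartedSpace (E N) Y] [IsManifold 𝓘(ℂ, E N) ω Y]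
    (g : X → Mat n) (h : Y → Mat N) (f : X → Y) (hg : Kaehler g) (hK : CanNef g)
    (hh : Hermitian h) (hf : MDifferentiable 𝓘(ℂ, E n) 𝓘(ℂ, E N) f)
    (hc : ∀ x v, v ≠ 0 → curvAt h (f x) v v < 0)
    (h0 : ∃ x, Function.Injective (mfderiv 𝓘(ℂ, E n) 𝓘(ℂ, E N) f x)) : CanBig n X := by
  obtain ⟨κ, k1, k2⟩ := unif hh (isCompact_range hf.continuous) (by
    rintro _ ⟨x, rfl⟩
    exact hc x)
  obtain ⟨T, t1, t2, t3, t4⟩ := HW68.pull (κ := fun _ => κ) hh hf fun x => k2 _ ⟨x, rfl⟩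
  exact big_of_vol hg hK fun hn _ => W86.vol_of_dsc HS.asAUBIN hn (kae hg) (nef hg hK) t1 t2
    continuous_const t3 (Or.inl ⟨fun _ => k1, h0.imp t4⟩)

end Pool.Agent.Lib.HW
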