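import Pool.Agent.Lib.GH.SDefs

/-! Definitions used in the statement: the canonical bundle is nef, the canonical bundle is big. -/

open scoped ContDiff Matrix

noncomputable section

namespace Pool.Agent.Lib.HW

open Pool.Agent.Lib.SV Pool.Agent.Lib.HS

variable {n : ℕ}

/-- The Levi form `∑ ∂²φ / ∂z_j ∂(conj z_k) v_j conj v_k` of a real function at `z`. -/
def levi (φ : E n → ℝ) (z v : E n) : ℝ :=
  (fderiv ℝ (fun w => fderiv ℝ φ w v) z v +
    fderiv ℝ (fun w => fderiv ℝ φ w (Complex.I • v)) z (Complex.I • v)) / 4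

variable {X : Type} [TopologicalSpace X] [ChartedSpace (E n) X]

/-- The canonical bundle is nef: for every `ε > 0` it has a smooth Hermitian metric
`exp (-u) / det g` whose curvature form is at least `-ε g`. -/
def CanNef (g : X → Mat n) : Prop :=
  ∀ ε : ℝ, 0 < ε → ∃ u : X → ℝ, ∀ x,
    ContDiffAt ℝ ∞ (u ∘ (chartAt (E n) x).symm) (chartAt (E n) x x) ∧
    ∀ v, -(ε * (star v ⬝ᵥ g x *ᵥ v).re) ≤
      levi (fun z => u ((chartAt (E n) x).symm z) + Real.log (inChart g x z).det.re)
        (chartAt (E n) x x) v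

variable (n X) in
/-- The canonical bundle is big: for all large `a` its `a`-th power has at least `c a ^ n` linearly
independent holomorphic sections. -/
def CanBig : Prop :=
  ∃ c : ℝ, 0 < c ∧ ∀ᶠ a : ℕ in Filter.atTop, ∃ (d : ℕ) (s : Fin d → X → ℂ),
    c * a ^ n ≤ d ∧ LinearIndependent ℂ s ∧ ∀ i, s i ∈ Pluri n X a

end Pool.Agent.Lib.HW
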